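import Mathlib
import Pool.Agent.H849R3.Q1c

/-!
# Co-hopficity does not pass to subgroups of finite index

The group `G = (C₃ * C₅) ⋊ C₂ = S₃ *_{C₂} D₅` (the involution inverts both factors) is finitely
presented and co-hopfian, and its subgroup `C₃ * C₅` of index two is finitely presented and not
co-hopfian. This answers Q1 of MP_ce3880_al negatively in each of the classes of all groups, of
finitely generated groups, and of finitely presented groups.
-/

set_option autoImplicit false

namespace Pool.Agent.Results.MP_ce3880_al.FiniteIndexSubgroup

/-- A group is co-hopfian if each of its injective endomorphisms is surjective. -/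
def CoHopfian (G : Type) [Group G] : Prop :=
  ∀ f : G →* G, Function.Injective f → Function.Surjective f

/-- There is a finitely presented co-hopfian group with a normal subgroup of index two which is
finitely presented and not co-hopfian. -/
theorem result : ∃ (G : Type) (_ : Group G) (H : Subgroup G),
    Group.IsFinitelyPresented G ∧ Group.IsFinitelyPresented H ∧ Group.FG G ∧ Group.FG H ∧
      H.Normal ∧ H.index = 2 ∧ CoHopfian G ∧ ¬ CoHopfian H := by
  have h1 := H849R3.GG_fp
  have h2 := H849R3.HH_fp
  have fg : ∀ (A : Type) [Group A], Group.IsFinitelyPresented A → Group.FG A := by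
    intro A _ h
    obtain ⟨n, φ, hφ, -⟩ := h.out
    exact Group.fg_of_surjective hφ
  refine ⟨H849R3.GG, inferInstance, H849R3.HH, h1, h2, fg _ h1, fg _ h2,
    Subgroup.normal_of_index_eq_two H849R3.HH_index, H849R3.HH_index, H849R3.GG_coh, ?_⟩
  intro h
  apply H849R3.rho_not_surjective
  have e := H849R3.HHe
  have h3 := h ((e.toMonoidHom.comp H849R3.rho).comp e.symm.toMonoidHom)
    (e.injective.comp (H849R3.rho_injective.comp e.symm.injective))
  intro y
  obtain ⟨x, hx⟩ := h3 (e y)
  exact ⟨e.symm x, e.injective hx⟩

end Pool.Agent.Results.MP_ce3880_al.FiniteIndexSubgroup
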